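import Pool.Agent.H65.HX.SStm

/-!
# Project HX, scheme side: part KKR (rounding by telescoping floors)

Adapted from `Pool/Agent/H93/HW/SKkr.lean`.
-/

set_option autoImplicit false
open Classical Finset

namespace Pool.Agent.H1.HX

open Pool.Agent.H39.HW (sm Av ln blk lab)
open Pool.Agent.H65.HX Pool.Agent.H65.HX.Sc

theorem floor_diff_aux (A d : ℝ) (hA : 0 ≤ A) (hd : 0 ≤ d) :
    |((⌊A + d⌋₊ - ⌊A⌋₊ : ℕ) : ℝ) - d| ≤ 1 := by
  have hm : ⌊A⌋₊ ≤ ⌊A + d⌋₊ := Nat.floor_mono (by linarith)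
  rw [Nat.cast_sub hm]
  have h1 := Nat.floor_le hA
  have h2 := Nat.lt_floor_add_one A
  have h3 := Nat.floor_le (by linarith : 0 ≤ A + d)
  have h4 := Nat.lt_floor_add_one (A + d)
  rw [abs_le]
  constructor <;> linarith

theorem R_card_le (x : Prm) : x.R.card ≤ x.B := by
  unfold Prm.R Prm.B Prm.b1
  rw [Nat.card_Icc]
  omega

/-! ### first numbers -/

theorem Lge {x : Prm} (hx : Par x) : (8 * 10 ^ 6 : ℝ) ≤ x.L := by
  have h1 : (1000 : ℝ) ≤ x.h := by exact_mod_cast hx.h1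
  have h2 : (x.L : ℝ) = 8 * x.h ^ 2 + 4 * x.h := by rw [hx.L1]; push_cast; ring
  rw [h2]
  nlinarith

theorem hge {x : Prm} (hx : Par x) : (1000 : ℝ) ≤ x.h := by exact_mod_cast hx.h1

theorem hL {x : Prm} (hx : Par x) : (1000 : ℝ) * x.h ≤ x.L := by
  have h1 := hge hx
  have h2 : (x.L : ℝ) = 8 * x.h ^ 2 + 4 * x.h := by rw [hx.L1]; push_cast; ring
  rw [h2]
  nlinarith

/-- `n0 μ` and `η` are tiny -/
theorem n0mu {x : Prm} (hx : Par x) : x.n0 * x.μ ≤ 1 / 10 ^ 20 := by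
  have h1 := hx.V1
  have h2 := Lge hx
  have h3 := hge hx
  have h4 : 0 ≤ x.n0 * x.μ := mul_nonneg (Nat.cast_nonneg _) hx.m0.le
  have h5 : (8 * 10 ^ 6 : ℝ) * 1000 ≤ x.L * x.h := by gcongr
  have h6 : (10 : ℝ) ^ 12 * (8 * 10 ^ 6 * 1000) * (x.n0 * x.μ) ≤
      10 ^ 12 * (x.L : ℝ) * x.h * (x.n0 * x.μ) := by
    have := mul_le_mul_of_nonneg_right h5 (mul_nonneg (by norm_num : (0 : ℝ) ≤ 10 ^ 12) h4)
    nlinarith
  nlinarith

theorem eta_le {x : Prm} (hx : Par x) : x.η ≤ 1 / 10 ^ 26 := by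
  have h1 := hx.V2
  have h2 := n0mu hx
  linarith

theorem th_le {x : Prm} (hx : Par x) : x.θ ≤ 1 / 10 ^ 26 := hx.th.trans (eta_le hx)

/-- `L^3 (L μ)` is tiny compared with `η θ` -/
theorem Lmu {x : Prm} (hx : Par x) : 10 ^ 20 * (x.L * x.μ) ≤ x.η * x.θ := by
  have h1 := hx.u1
  have h2 := Lge hx
  have h3 : (1 : ℝ) ≤ (x.L : ℝ) ^ 3 := one_le_pow₀ (by linarith)
  have h4 : 0 ≤ 10 ^ 20 * (x.L * x.μ) := by have := hx.m0; positivity
  have h5 : 10 ^ 20 * (x.L * x.μ) * 1 ≤ 10 ^ 20 * (x.L * x.μ) * (x.L : ℝ) ^ 3 :=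
    mul_le_mul_of_nonneg_left h3 h4
  have h6 : 10 ^ 20 * (x.L * x.μ) * (x.L : ℝ) ^ 3 = 10 ^ 20 * (x.L : ℝ) ^ 4 * x.μ := by ring
  linarith

theorem muth {x : Prm} (hx : Par x) : 10 ^ 20 * (x.L : ℝ) ^ 4 * x.μ ≤ x.η * x.θ := hx.u1

theorem MB {x : Prm} : (x.M : ℝ) ≤ x.B := by
  have : x.M ≤ x.B := by unfold Prm.B; omega
  exact_mod_cast this

theorem tmu {x : Prm} (hx : Par x) : 10 ^ 19 * (x.L : ℝ) ^ 3 ≤ x.η * (x.t * x.μ) := by
  have h1 := hx.t2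
  have hm := hx.m0
  have hm1 := (abs_le.1 hx.m1).1
  have hL := Lge hx
  have he := eta_le hx
  have hMB := MB (x := x)
  have hBm : 1 / 2 ≤ (x.B : ℝ) * x.μ := by nlinarith
  have h2 := mul_le_mul_of_nonneg_right h1 hm.le
  have h3 : 10 ^ 20 * (x.L : ℝ) ^ 3 * (1 / 2) ≤ 10 ^ 20 * (x.L : ℝ) ^ 3 * (x.B * x.μ) :=
    mul_le_mul_of_nonneg_left hBm (by positivity)
  have h4 : (0 : ℝ) ≤ (x.L : ℝ) ^ 3 := by positivity
  nlinarith

theorem t_KKR (h : S_UPB) : S_KKR := by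
  intro x hx P hP
  obtain ⟨hrow, hcol⟩ := h x hx P hP
  have main : ∀ a ∈ x.R, ∑ β ∈ range x.B, x.kk P a β = x.t ∧
    (∀ β, |(x.kk P a β : ℝ) - x.t * x.uP P a β| ≤ 1) ∧
    (∀ β, x.uP P a β = 0 → x.kk P a β = 0) ∧ (∀ β, x.B ≤ β → x.kk P a β = 0) := by
    intro a ha
    obtain ⟨h0, h1, h2⟩ := hrow a ha
    have hz : ∀ β, x.uP P a β = 0 → x.kk P a β = 0 := by
      intro β hβ
      unfold Prm.kk
      rw [Finset.sum_range_succ, hβ, add_zero, Nat.sub_self]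
    have hT0 : ∀ β, 0 ≤ ∑ b ∈ range β, x.uP P a b := fun β => Finset.sum_nonneg fun b _ => h0 b
    have ht : (0 : ℝ) ≤ x.t := Nat.cast_nonneg _
    refine ⟨?_, ?_, hz, ?_⟩
    · have hmono : Monotone fun β => ⌊(x.t : ℝ) * ∑ b ∈ range β, x.uP P a b⌋₊ := by
        apply monotone_nat_of_le_succ
        intro n
        apply Nat.floor_mono
        apply mul_le_mul_of_nonneg_left _ ht
        rw [Finset.sum_range_succ]
        linarith [h0 n]
      have := Finset.sum_range_tsub hmono x.B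
      unfold Prm.kk
      rw [this, h1]
      simp
    · intro β
      unfold Prm.kk
      rw [Finset.sum_range_succ, mul_add]
      exact floor_diff_aux _ _ (mul_nonneg ht (hT0 β)) (mul_nonneg ht (h0 β))
    · intro β hβ
      apply hz
      by_contra hne
      have hc := (h2 β hne).1
      unfold Prm.cls Dat.cls at hc
      simp only [Finset.mem_sdiff, Finset.mem_erase, Finset.mem_filter, Finset.mem_range] at hc
      have : β < x.d0.B := hc.1.2.1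
      have h3 : x.d0.B = x.B := rfl
      omega
  refine ⟨main, ?_⟩
  intro β hβ
  have h1 : (∑ a ∈ x.R, x.kk P a β : ℝ) ≤ ∑ a ∈ x.R, (x.t * x.uP P a β + 1) := by
    apply Finset.sum_le_sum
    intro a ha
    have := abs_le.1 ((main a ha).2.1 β)
    linarith [this.2]
  rw [Finset.sum_add_distrib, ← Finset.mul_sum, Finset.sum_const, nsmul_eq_mul, mul_one] at h1
  have h2 := hcol β hβ
  have ht : (0 : ℝ) ≤ x.t := Nat.cast_nonneg _
  have h3 := mul_le_mul_of_nonneg_left h2 ht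
  have h4 : (x.R.card : ℝ) ≤ x.B := by exact_mod_cast R_card_le x
  have hL := Lge hx
  have hB : (0 : ℝ) ≤ x.B := Nat.cast_nonneg _
  have he := eta_le hx
  have h5 : 10 ^ 20 * (x.B : ℝ) ≤ x.t := by
    have h6 := hx.t2
    have hL2 : (1 : ℝ) ≤ (x.L : ℝ) ^ 3 := one_le_pow₀ (by linarith)
    have h7 : 10 ^ 20 * (x.B : ℝ) * 1 ≤ 10 ^ 20 * (x.B : ℝ) * (x.L : ℝ) ^ 3 :=
      mul_le_mul_of_nonneg_left hL2 (by positivity)
    have h8 : x.η * x.t ≤ 1 * x.t := mul_le_mul_of_nonneg_right (by linarith) ht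
    nlinarith
  nlinarith

end Pool.Agent.H1.HX
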