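import Pool.Agent.H1.HX.Kkr

/-!
# Project HX, scheme side: part KTB (the numbers `kt` and `k`)

Adapted from `Pool/Agent/H93/HW/SKtb.lean`.
-/

set_option autoImplicit false
open Classical Finset

namespace Pool.Agent.H1.HX

open Pool.Agent.H39.HW (sm Av ln blk lab)
open Pool.Agent.H65.HX Pool.Agent.H65.HX.Sc

theorem TT_bounds (hT : S_TTB) {x : Prm} (hx : Par x) {a : ℕ} (ha : a ∈ x.R) (β : ℕ) :
    (1 / 2 - 1 / (100 * x.L)) * x.θ ≤ TT x a β ∧ TT x a β ≤ x.θ / 2 := by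
  unfold TT
  by_cases h : a ∈ x.R0
  · rw [if_pos h]
    have := hT x hx a ha (decide (a < β))
    exact ⟨this.1, this.2.1⟩
  · rw [if_neg h]
    have := hT x hx a ha true
    rw [← (this.2.2.1 h).1]
    exact ⟨this.1, this.2.1⟩

theorem TT_low (hT : S_TTB) {x : Prm} (hx : Par x) {a : ℕ} (ha : a ∈ x.R) (β : ℕ) :
    49 / 100 * x.θ ≤ TT x a β := by
  have h1 := (TT_bounds hT hx ha β).1
  have hL := Lge hx
  have h2 : (1 : ℝ) / (100 * x.L) ≤ 1 / 100 := by
    apply one_div_le_one_div_of_le (by norm_num)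
    linarith
  have := hx.t0
  nlinarith

theorem TT_pos (hT : S_TTB) {x : Prm} (hx : Par x) {a : ℕ} (ha : a ∈ x.R) (β : ℕ) :
    0 < TT x a β := lt_of_lt_of_le (by have := hx.t0; positivity) (TT_low hT hx ha β)

/-- the normalised demand of a class is at least `7 / 25 μ` -/
theorem z_low (hT : S_TTB) (hC : S_CLD) {x : Prm} (hx : Par x) {a : ℕ} (ha : a ∈ x.R) {β : ℕ}
    (hβ : β ∈ x.cls a) : 7 / 25 * x.μ ≤ x.dem a β / TT x a β := by
  have h1 := ((hC x hx a ha).2.2.2.2.2.1 β hβ).1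
  have h2 := (TT_bounds hT hx ha β).2
  rw [le_div_iff₀ (TT_pos hT hx ha β)]
  have := mul_le_mul_of_nonneg_left h2 (by have := hx.m0; positivity : 0 ≤ 7 / 25 * x.μ)
  linarith

/-- `η t` times the normalised demand is large -/
theorem tz_low (hT : S_TTB) (hC : S_CLD) {x : Prm} (hx : Par x) {a : ℕ} (ha : a ∈ x.R) {β : ℕ}
    (hβ : β ∈ x.cls a) :
    10 ^ 18 * (x.L : ℝ) ^ 3 ≤ x.η * (x.t * (x.dem a β / TT x a β)) := by
  have h1 := z_low hT hC hx ha hβ
  have h2 := tmu hx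
  have h3 := mul_le_mul_of_nonneg_left h1 (mul_nonneg hx.n1.le (Nat.cast_nonneg x.t) :
    (0 : ℝ) ≤ x.η * x.t)
  have h4 : (0 : ℝ) ≤ (x.L : ℝ) ^ 3 := by positivity
  nlinarith

theorem kt_eq_sum (x : Prm) (hx : Par x) (φ : ℕ → ℕ → ℕ) (a β : ℕ) :
    (x.dat φ).kt a β = ∑ P ∈ range (2 * x.h), (x.dat φ).k P a β := by
  have ht0 : 0 < x.t := hx.t1
  unfold Dat.kt Dat.k
  have h1 := Finset.card_eq_sum_card_fiberwise (s := (range (x.dat φ).m).filter fun y =>
    (x.dat φ).φ y a = β) (t := range (2 * x.h)) (f := fun y => y / x.t) (by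
      intro y hy
      have hy2 : y ∈ (range (x.dat φ).m).filter fun y => (x.dat φ).φ y a = β := hy
      rw [Finset.mem_filter, Finset.mem_range] at hy2
      have hy3 : y < 2 * x.h * x.t := hy2.1
      have : y / x.t < 2 * x.h := Nat.div_lt_of_lt_mul (by rw [mul_comm]; exact hy3)
      simpa using this)
  rw [h1]
  apply Finset.sum_congr rfl
  intro P _
  rw [Finset.filter_filter]
  congr 1
  apply Finset.filter_congr
  intro y _
  constructor
  · rintro ⟨h2, h3⟩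
    exact ⟨h3, h2⟩
  · rintro ⟨h2, h3⟩
    exact ⟨h3, h2⟩

theorem t_KTB (hK : S_KKR) (hU : S_UPT) (hC : S_CLD) (hT : S_TTB) : S_KTB := by
  intro x hx φ hφ a ha
  have hk : ∀ P < 2 * x.h, ∀ β, (x.dat φ).k P a β = x.kk P a β := by
    intro P hP β
    exact hφ.2 P hP a ha β
  refine ⟨hk, ?_⟩
  intro β hβ
  have hkt : ((x.dat φ).kt a β : ℝ) = ∑ P ∈ range (2 * x.h), (x.kk P a β : ℝ) := by
    rw [kt_eq_sum x hx φ a β]
    push_cast
    apply Finset.sum_congr rfl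
    intro P hP
    rw [hk P (Finset.mem_range.1 hP)]
  have h1 : |((x.dat φ).kt a β : ℝ) - x.t * ∑ P ∈ range (2 * x.h), x.uP P a β| ≤ 2 * x.h := by
    rw [hkt, Finset.mul_sum, ← Finset.sum_sub_distrib]
    calc |∑ P ∈ range (2 * x.h), ((x.kk P a β : ℝ) - x.t * x.uP P a β)|
        ≤ ∑ P ∈ range (2 * x.h), |(x.kk P a β : ℝ) - x.t * x.uP P a β| :=
          Finset.abs_sum_le_sum_abs _ _
      _ ≤ ∑ P ∈ range (2 * x.h), (1 : ℝ) := by
          apply Finset.sum_le_sum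
          intro P hP
          exact ((hK x hx P (Finset.mem_range.1 hP)).1 a ha).2.1 β
      _ = 2 * x.h := by simp
  have h2 := hU x hx a ha β hβ
  have hh := hge hx
  have hL := Lge hx
  have hh0 : (0 : ℝ) < x.h := by linarith
  have hL0 : (0 : ℝ) < x.L := by linarith
  have htz := tz_low hT hC hx ha hβ
  have he := hx.n1
  have ht0 : (0 : ℝ) ≤ x.t := Nat.cast_nonneg _
  -- z = dem / TT
  set z := x.dem a β / TT x a β with hz
  have e1 : x.h * x.dem a β / TT x a β = x.h * z := by rw [hz]; ring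
  have e2 : x.h * x.t * x.dem a β / TT x a β = x.h * x.t * z := by rw [hz]; ring
  rw [e1] at h2
  rw [e2]
  have h3 : |x.t * ∑ P ∈ range (2 * x.h), x.uP P a β - x.h * x.t * z| ≤
      x.t * (x.η / (10 ^ 6 * x.L ^ 2) * (x.h * z)) := by
    have e3 : x.t * ∑ P ∈ range (2 * x.h), x.uP P a β - x.h * x.t * z =
      x.t * (∑ P ∈ range (2 * x.h), x.uP P a β - x.h * z) := by ring
    rw [e3, abs_mul, abs_of_nonneg ht0]
    exact mul_le_mul_of_nonneg_left h2 ht0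
  have h4 : |((x.dat φ).kt a β : ℝ) - x.h * x.t * z| ≤
      2 * x.h + x.t * (x.η / (10 ^ 6 * x.L ^ 2) * (x.h * z)) := by
    have := abs_sub_le ((x.dat φ).kt a β : ℝ) (x.t * ∑ P ∈ range (2 * x.h), x.uP P a β)
      (x.h * x.t * z)
    linarith
  refine h4.trans ?_
  rw [← sub_nonneg]
  have e6 : x.η / (10 ^ 5 * (x.L : ℝ) ^ 2) * (x.h * x.t * z) -
      (2 * x.h + x.t * (x.η / (10 ^ 6 * x.L ^ 2) * (x.h * z))) =
      x.h * (9 * (x.η * (x.t * z)) - 2 * (10 ^ 6 * x.L ^ 2)) /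
        (10 ^ 6 * x.L ^ 2) := by
    field_simp
    ring
  rw [e6]
  apply div_nonneg _ (by positivity)
  apply mul_nonneg hh0.le
  have h5 : (x.L : ℝ) ^ 2 ≤ (x.L : ℝ) ^ 3 := by
    have : (x.L : ℝ) ^ 3 = (x.L : ℝ) ^ 2 * x.L := by ring
    rw [this]
    have h6 : (0 : ℝ) ≤ (x.L : ℝ) ^ 2 := by positivity
    nlinarith
  have h7 : (0 : ℝ) ≤ (x.L : ℝ) ^ 3 := by positivity
  linarith

end Pool.Agent.H1.HX
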