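import Pool.Agent.H1.HX.Ktb

/-!
# Project HX, scheme side: part VH (the hub)
-/

set_option autoImplicit false
open Classical Finset

namespace Pool.Agent.H1.HX

open Pool.Agent.H39.HW (sm Av ln blk lab)
open Pool.Agent.H65.HX Pool.Agent.H65.HX.Sc

/-- the shares are close to 1 -/
theorem rs_bounds (hS : S_SHR) {x : Prm} (hx : Par x) {P a : ℕ} (hP : P < 2 * x.h) (ha : a ∈ x.R) :
    99 / 100 ≤ x.rs P a ∧ x.rs P a ≤ 101 / 100 := by
  have hrs := abs_le.mp (hS x hx P hP a ha)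
  have hsm : 1000 * x.L * x.μ / x.θ ≤ 1 / 100 := by
    rw [div_le_iff₀ hx.t0]
    have h1 := Lmu hx
    have h2 := eta_le hx
    have h3 := hx.t0
    nlinarith
  constructor
  · linarith [hrs.1]
  · linarith [hrs.2]

/-- VH: the hub -/
theorem t_VH (hK : S_KTB) (hKK : S_KKR) (hR : S_ROW) (hP : S_PAT) (hS : S_SHR) (hC : S_CLD)
    (hT : S_TTB) : S_VH := by
  intro x hx φ hφ
  refine ⟨fun a _ => Finset.filter_subset _ _, ?_⟩
  intro a ha β hβ P hPh hty
  have hPh' : P < 2 * x.h := hPh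
  have ha' : a ∈ x.R := ha
  have hβ' : β ∈ x.Hb a := hβ
  have hty' : a ∈ x.R0 → x.tp P = decide (a < β) := hty
  have hβ2 := hβ'
  unfold Prm.Hb at hβ2
  rw [Finset.mem_filter] at hβ2
  obtain ⟨hcls, -, hpos, -⟩ := hβ2
  obtain ⟨hk1, hk2⟩ := hK x hx φ hφ a ha'
  rw [hk1 P hPh' β]
  have e1 := (abs_le.mp (hk2 β hcls)).2
  have e2 := (abs_le.mp (((hKK x hx P hPh').1 a ha').2.1 β)).1
  have e3 := (hR x hx a ha' (x.tp P)).2.2.2.2.2 β hβ' hty'
  have hbig := tz_low hT hC hx ha' hcls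
  have hh := hge hx
  have hL := Lge hx
  have he := eta_le hx
  have he0 := hx.n1
  have ht0 : (0 : ℝ) ≤ x.t := Nat.cast_nonneg _
  set z := x.dem a β / TT x a β with hz
  have e4 : x.h * x.t * x.dem a β / TT x a β = x.h * (x.t * z) := by rw [hz]; ring
  rw [e4] at e1
  have hL3 : (1 : ℝ) ≤ (x.L : ℝ) ^ 3 := one_le_pow₀ (by linarith)
  have htz0 : 0 ≤ x.t * z := by
    by_contra hneg
    push Not at hneg
    have : x.η * (x.t * z) ≤ 0 := mul_nonpos_of_nonneg_of_nonpos he0.le hneg.le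
    linarith
  have htz : 1000 ≤ x.t * z := by
    have : x.η * (x.t * z) ≤ 1 * (x.t * z) := mul_le_mul_of_nonneg_right (by linarith) htz0
    linarith
  have hz0 : 0 ≤ z := by
    by_contra hneg
    push Not at hneg
    have : x.t * z ≤ 0 := mul_nonpos_of_nonneg_of_nonpos ht0 hneg.le
    linarith
  -- the weight
  have hw : 1 ≤ x.wt P (β % x.L) := by
    apply (hP x hx P hPh').2.1 _
    unfold Prm.resv
    omega
  obtain ⟨hrs1, hrs2⟩ := rs_bounds hS hx hPh' ha'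
  have hrs0 : 0 < x.rs P a := by linarith
  have e6 : 6 / 25 * z ≤ x.uP P a β := by
    unfold Prm.uP
    rw [le_div_iff₀ hrs0]
    have b1 : x.u (x.tp P) a β ≤ x.wt P (β % x.L) * x.u (x.tp P) a β := by
      have : 0 ≤ x.u (x.tp P) a β := (hR x hx a ha' (x.tp P)).1 β
      nlinarith
    have b2 : 6 / 25 * z * x.rs P a ≤ 6 / 25 * z * (101 / 100) :=
      mul_le_mul_of_nonneg_left hrs2 (by positivity)
    nlinarith
  have e7 : 6 / 25 * (x.t * z) ≤ x.t * x.uP P a β := by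
    have := mul_le_mul_of_nonneg_left e6 ht0
    nlinarith
  have e8 : x.η / (10 ^ 5 * (x.L : ℝ) ^ 2) ≤ 1 := by
    rw [div_le_one (by positivity)]
    have : (1 : ℝ) ≤ (x.L : ℝ) ^ 2 := one_le_pow₀ (by linarith)
    linarith
  have e9 : 0 ≤ x.h * (x.t * z) := by positivity
  have e10 : x.η / (10 ^ 5 * (x.L : ℝ) ^ 2) * (x.h * (x.t * z)) ≤ x.h * (x.t * z) := by
    nlinarith
  have e11 : ((x.dat φ).kt a β : ℝ) ≤ 2 * x.h * (x.t * z) := by linarith
  have e12 : 1 / 5 * (x.t * z) ≤ x.kk P a β := by linarith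
  have e13 : ((x.dat φ).kt a β : ℝ) ≤ 8 * (2 * x.h) * x.kk P a β := by
    have : 2 * x.h * (x.t * z) ≤ 8 * (2 * x.h) * (x.kk P a β : ℝ) := by
      have := mul_le_mul_of_nonneg_left e12 (by positivity : (0 : ℝ) ≤ 8 * (2 * x.h))
      nlinarith
    exact e11.trans this
  exact_mod_cast e13

end Pool.Agent.H1.HX
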